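import Pool.Agent.TH883.Zg.Sign

/-!
# Combinations of multiple harmonic sums that vanish at arbitrarily large integers (helper86)
-/

set_option autoImplicit false

namespace Pool.Agent.V8H86.CV

open Filter Topology Polynomial Pool.Agent.TH507.HS Pool.Agent.TH507.ZS Pool.Agent.TH883.Zg

/-- a combination of multiple harmonic sums that vanishes at arbitrarily large integers is trivial
(the proof follows `hs_prime` by helper883) -/
theorem hs_freq (Λ : Finset (List ℕ+)) (h : ℕ) (c : Fin (h + 1) × Λ → ℚ)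
    (hc : ∀ m0 : ℕ, ∃ q : ℕ, m0 ≤ q ∧
      ∑ x : Fin (h + 1) × Λ, c x * (hs x.2.1 q / (q : ℚ) ^ (x.1 : ℕ)) = 0) : c = 0 := by
  classical
  set e : List ℕ+ → AA := fun w => if hw : w ∈ Λ then
    ∑ i : Fin (h + 1), kq (c (i, ⟨w, hw⟩)) * qj 1 0 ^ (i : ℕ) else 0 with he
  have heK : ∀ w, e w ∈ KN 1 le_rfl := by
    intro w
    rw [he]
    simp only
    split_ifs with hw
    · exact (KN 1 le_rfl).sum_mem fun i _ =>
        (KN 1 le_rfl).mul_mem (kq_mem 1 le_rfl _) ((KN 1 le_rfl).pow_mem (qj_mem 1 le_rfl 0) _)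
    · exact (KN 1 le_rfl).zero_mem
  have he2 : ∀ w : Λ, e w.1 = gr fun m => ∑ i : Fin (h + 1), c (i, w) *
      (1 / ((1 + 1 * m : ℕ) : ℚ)) ^ (i : ℕ) := by
    intro w
    rw [gr_sum, he]
    simp only [w.2, dite_true]
    refine Finset.sum_congr rfl fun i _ => ?_
    rw [qj, gr_pow, kq_apply, gr_mul]
    rfl
  set F : ℕ → ℚ := fun k => ∑ x : Fin (h + 1) × Λ, c x * (hs x.2.1 k / (k : ℚ) ^ (x.1 : ℕ)) with hF
  have hsum : ∑ w ∈ Λ, e w * yw 1 w = gr fun m => F (1 + 1 * m) := by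
    rw [← Finset.sum_coe_sort]
    have h1 : ∀ w : Λ, e w.1 * yw 1 w.1 = gr fun m => ∑ i : Fin (h + 1), c (i, w) *
        (hs w.1 (1 + 1 * m) / ((1 + 1 * m : ℕ) : ℚ) ^ (i : ℕ)) := by
      intro w
      rw [he2, yw, gr_mul]
      congr 1
      funext m
      rw [Finset.sum_mul]
      refine Finset.sum_congr rfl fun i _ => ?_
      rw [one_div, inv_pow]
      ring
    rw [Finset.sum_congr rfl fun w _ => h1 w, ← gr_sum]
    congr 1
    funext m
    rw [hF]
    simp only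
    rw [Fintype.sum_prod_type, Finset.sum_comm]
  have hlen : ∃ t, ∀ w ∈ Λ, w.length < t := by
    refine ⟨∑ w ∈ Λ, w.length + 1, fun w hw => ?_⟩
    have := Finset.single_le_sum (f := fun w : List ℕ+ => w.length) (fun _ _ => Nat.zero_le _) hw
    omega
  obtain ⟨t, ht⟩ := hlen
  have hW : ∑ w ∈ Λ, e w * yw 1 w ∈ W (KN 1 le_rfl) (yw 1) t :=
    (W _ _ t).sum_mem fun w hw => mul_mem_W (heK w) (mem_W (ht w hw))
  have hS := Sz_W 1 le_rfl t _ hW
  rw [hsum, Sz_gr] at hS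
  have hne : ∀ m0 : ℕ, (∀ m, m0 ≤ m → F (1 + 1 * m) ≠ 0) → False := by
    intro m0 hm0
    obtain ⟨q, hqp, h1⟩ := hc (m0 + 2)
    apply hm0 (q - 1) (by omega)
    rw [show 1 + 1 * (q - 1) = q by omega]
    exact h1
  rcases hS with h1 | h1 | h1
  · rw [eventually_atTop] at h1
    obtain ⟨m0, hm0⟩ := h1
    refine hs_ind Λ h 1 (m0 + 1) le_rfl c fun k hk _ => ?_
    have h2 : F (1 + 1 * (k - 1)) = 0 := hm0 (k - 1) (by omega)
    rw [show 1 + 1 * (k - 1) = k by omega] at h2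
    exact h2
  · rw [eventually_atTop] at h1
    obtain ⟨m0, hm0⟩ := h1
    exact (hne m0 fun m hm => (hm0 m hm).ne').elim
  · rw [eventually_atTop] at h1
    obtain ⟨m0, hm0⟩ := h1
    exact (hne m0 fun m hm => (hm0 m hm).ne).elim

end Pool.Agent.V8H86.CV
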