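import Mathlib
import Pool.Agent.V8H86.CV.Freq
import Pool.Agent.R473.DW.Alg

/-!
# Multiple Clausen values as values of Dirichlet series (helper86)
-/

set_option autoImplicit false

namespace Pool.Agent.V8H86.CV

open Pool.Agent.Y760.RT Pool.Agent.TH507.ZS Pool.Agent.TH507.HS Pool.Agent.TH883.Zg
  Pool.Agent.R473.DW Filter

/-- `cos (π k / 3)` -/
def c6 (k : ℕ) : ℚ :=
  if k % 6 = 0 then 1 else if k % 6 = 1 then 1 / 2 else if k % 6 = 2 then -1 / 2
  else if k % 6 = 3 then -1 else if k % 6 = 4 then -1 / 2 else 1 / 2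

/-- `sin (π k / 3) / √3` -/
def s6 (k : ℕ) : ℚ :=
  if k % 6 = 0 then 0 else if k % 6 = 1 then 1 / 2 else if k % 6 = 2 then 1 / 2
  else if k % 6 = 3 then 0 else if k % 6 = 4 then -1 / 2 else -1 / 2

lemma c6_le (k : ℕ) : |c6 k| ≤ 1 := by
  unfold c6
  split_ifs <;> norm_num [abs_le]

lemma s6_le (k : ℕ) : |s6 k| ≤ 1 := by
  unfold s6
  split_ifs <;> norm_num [abs_le]

lemma c6_succ (k : ℕ) : c6 (k + 1) = c6 k / 2 - 3 / 2 * s6 k := by
  have h : k % 6 < 6 := Nat.mod_lt _ (by norm_num)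
  have h1 : (k + 1) % 6 = (k % 6 + 1) % 6 := by omega
  unfold c6 s6
  rw [h1]
  interval_cases (k % 6) <;> norm_num

lemma s6_succ (k : ℕ) : s6 (k + 1) = c6 k / 2 + s6 k / 2 := by
  have h : k % 6 < 6 := Nat.mod_lt _ (by norm_num)
  have h1 : (k + 1) % 6 = (k % 6 + 1) % 6 := by omega
  unfold c6 s6
  rw [h1]
  interval_cases (k % 6) <;> norm_num

/-- `√-3` -/
noncomputable def r3 : ℂ := (Real.sqrt 3 : ℝ) * Complex.I

lemma r3_sq : r3 * r3 = -3 := by
  have h1 : ((Real.sqrt 3 : ℝ) : ℂ) * ((Real.sqrt 3 : ℝ) : ℂ) = 3 := by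
    rw [← Complex.ofReal_mul, Real.mul_self_sqrt (by norm_num)]
    norm_num
  calc r3 * r3 = (((Real.sqrt 3 : ℝ) : ℂ) * ((Real.sqrt 3 : ℝ) : ℂ)) *
      (Complex.I * Complex.I) := by rw [r3]; ring
    _ = -3 := by rw [h1, Complex.I_mul_I]; norm_num

/-- the sixth root of unity -/
noncomputable def om : ℂ := Complex.exp (Real.pi * Complex.I / 3)

lemma om_eq : om = 1 / 2 + r3 / 2 := by
  rw [om, show (Real.pi : ℂ) * Complex.I / 3 = ((Real.pi / 3 : ℝ) : ℂ) * Complex.I by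
    push_cast; ring, Complex.exp_mul_I, ← Complex.ofReal_cos, ← Complex.ofReal_sin,
    Real.cos_pi_div_three, Real.sin_pi_div_three, r3]
  push_cast
  ring

lemma om_pow (k : ℕ) : om ^ k = ((c6 k : ℚ) : ℂ) + r3 * ((s6 k : ℚ) : ℂ) := by
  induction k with
  | zero => simp [c6, s6]
  | succ k ih =>
    rw [pow_succ, ih, om_eq, c6_succ, s6_succ]
    push_cast
    have h := r3_sq
    linear_combination (((s6 k : ℚ) : ℂ) / 2) * h

/-- the multiple Clausen value `μ_{a, w}` -/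
noncomputable def mcv (a : ℕ) (w : List ℕ+) : ℂ :=
  ∑' k : ℕ, om ^ (k + 1) / ((k + 1 : ℕ) : ℂ) ^ a * ((hs w (k + 1) : ℚ) : ℂ)

variable {Λ : Finset (List ℕ+)} {h : ℕ}

/-- the arithmetic functions of the real and imaginary parts -/
noncomputable def gc (x : (Fin (h + 1) × Λ) × Bool) : ArithmeticFunction ℚ :=
  af (fun k => (if x.2 then s6 k else c6 k) * (hs x.1.2.1 k / (k : ℚ) ^ (x.1.1 : ℕ)))

lemma gc_apply (x : (Fin (h + 1) × Λ) × Bool) (k : ℕ) (hk : 1 ≤ k) :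
    gc x k = (if x.2 then s6 k else c6 k) * (hs x.1.2.1 k / (k : ℚ) ^ (x.1.1 : ℕ)) :=
  af_apply _ hk

lemma gc_bound (x : (Fin (h + 1) × Λ) × Bool) (k : ℕ) (hk : 1 ≤ k) :
    |(gc x k : ℝ)| ≤ ((x.1.2.1.length + 1 : ℕ) : ℝ) * (k : ℝ) ^ (x.1.2.1.length + 1) := by
  have h1 : (1 : ℝ) ≤ k := by exact_mod_cast hk
  rw [gc_apply x k hk]
  push_cast
  have h0 : |((if x.2 then s6 k else c6 k : ℚ) : ℝ)| ≤ 1 := by
    split_ifs
    · exact_mod_cast s6_le k
    · exact_mod_cast c6_le k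
  have h4 : |(hs x.1.2.1 k : ℝ) / (k : ℝ) ^ (x.1.1 : ℕ)| ≤
      ((x.1.2.1.length : ℝ) + 1) * (k : ℝ) ^ (x.1.2.1.length + 1) := by
    rw [abs_div, abs_of_pos (by positivity : (0 : ℝ) < (k : ℝ) ^ (x.1.1 : ℕ))]
    refine (div_le_self (abs_nonneg _) (one_le_pow₀ h1)).trans ((hs_bound _ k hk).trans ?_)
    have h3 : (1 : ℝ) ≤ (x.1.2.1.length : ℝ) + 1 := by
      have : (0 : ℝ) ≤ (x.1.2.1.length : ℝ) := Nat.cast_nonneg _
      linarith only [this]
    calc (k : ℝ) ^ x.1.2.1.length ≤ (k : ℝ) ^ (x.1.2.1.length + 1) :=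
          pow_le_pow_right₀ h1 (by omega)
      _ ≤ ((x.1.2.1.length : ℝ) + 1) * (k : ℝ) ^ (x.1.2.1.length + 1) :=
          le_mul_of_one_le_left (by positivity) h3
  have h5 := mul_le_mul h0 h4 (abs_nonneg _) zero_le_one
  rw [one_mul, ← abs_mul] at h5
  exact h5

lemma gc_pb (x : (Fin (h + 1) × Λ) × Bool) : PB (gc x) := ⟨_, gc_bound x⟩

/-- **independence at the primes** -/
lemma gc_prime (Y : ℕ) (c : (Fin (h + 1) × Λ) × Bool → ℚ)
    (hc : ∀ q : ℕ, q.Prime → Y ≤ q → ∑ x : (Fin (h + 1) × Λ) × Bool, c x * gc x q = 0) :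
    c = 0 := by
  classical
  have hF : ∀ q : ℕ, q.Prime → Y ≤ q → ∑ x : Fin (h + 1) × Λ,
      (c6 q * c (x, false) + s6 q * c (x, true)) * (hs x.2.1 q / (q : ℚ) ^ (x.1 : ℕ)) = 0 := by
    intro q hq hY
    have h0 := hc q hq hY
    rw [Fintype.sum_prod_type] at h0
    refine Eq.trans ?_ h0
    refine Finset.sum_congr rfl fun x _ => ?_
    rw [Fintype.sum_bool, gc_apply _ q hq.one_lt.le, gc_apply _ q hq.one_lt.le]
    simp only [if_true, Bool.false_eq_true, if_false]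
    ring
  have key : ∀ r : ℕ, IsUnit (r : ZMod 6) → ∀ m0 : ℕ, ∃ q : ℕ, m0 ≤ q ∧ q.Prime ∧ Y ≤ q ∧
      q % 6 = r % 6 := by
    intro r hr m0
    obtain ⟨q, hq1, hq2, hq3⟩ := Nat.forall_exists_prime_gt_and_eq_mod hr (m0 + Y)
    refine ⟨q, by omega, hq2, by omega, ?_⟩
    exact (ZMod.natCast_eq_natCast_iff' q r 6).1 hq3
  have h1 : (fun x : Fin (h + 1) × Λ => c (x, false) + c (x, true)) = 0 := by
    refine hs_freq Λ h _ fun m0 => ?_
    obtain ⟨q, hq, hqp, hqY, hq6⟩ := key 1 (by norm_num) m0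
    refine ⟨q, hq, ?_⟩
    have h2 := hF q hqp hqY
    have hc6 : c6 q = 1 / 2 := by
      unfold c6
      rw [hq6]
      norm_num
    have hs6 : s6 q = 1 / 2 := by
      unfold s6
      rw [hq6]
      norm_num
    rw [hc6, hs6] at h2
    have h3 : ∑ x : Fin (h + 1) × Λ, (1 / 2 * c (x, false) + 1 / 2 * c (x, true)) *
        (hs x.2.1 q / (q : ℚ) ^ (x.1 : ℕ)) = 1 / 2 * ∑ x : Fin (h + 1) × Λ,
        (c (x, false) + c (x, true)) * (hs x.2.1 q / (q : ℚ) ^ (x.1 : ℕ)) := by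
      rw [Finset.mul_sum]
      exact Finset.sum_congr rfl fun x _ => by ring
    rw [h3] at h2
    linarith
  have h2 : (fun x : Fin (h + 1) × Λ => c (x, false) - c (x, true)) = 0 := by
    refine hs_freq Λ h _ fun m0 => ?_
    obtain ⟨q, hq, hqp, hqY, hq6⟩ := key 5 (by decide) m0
    refine ⟨q, hq, ?_⟩
    have h2 := hF q hqp hqY
    have hc6 : c6 q = 1 / 2 := by
      unfold c6
      rw [hq6]
      norm_num
    have hs6 : s6 q = -1 / 2 := by
      unfold s6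
      rw [hq6]
      norm_num
    rw [hc6, hs6] at h2
    have h3 : ∑ x : Fin (h + 1) × Λ, (1 / 2 * c (x, false) + -1 / 2 * c (x, true)) *
        (hs x.2.1 q / (q : ℚ) ^ (x.1 : ℕ)) = 1 / 2 * ∑ x : Fin (h + 1) × Λ,
        (c (x, false) - c (x, true)) * (hs x.2.1 q / (q : ℚ) ^ (x.1 : ℕ)) := by
      rw [Finset.mul_sum]
      exact Finset.sum_congr rfl fun x _ => by ring
    rw [h3] at h2
    linarith
  funext ⟨x, b⟩
  have h3 := congrFun h1 x
  have h4 := congrFun h2 x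
  simp only [Pi.zero_apply] at h3 h4 ⊢
  cases b
  · linarith
  · linarith

/-- real and imaginary parts of multiple Clausen values -/
noncomputable def cv (n : ℕ) (x : (Fin (h + 1) × Λ) × Bool) : ℝ :=
  if x.2 then (mcv (n + x.1.1) x.1.2.1).im / Real.sqrt 3 else (mcv (n + x.1.1) x.1.2.1).re

lemma mcv_eq (n : ℕ) (x : Fin (h + 1) × Λ) (hn : x.2.1.length + 3 ≤ n) :
    mcv (n + x.1) x.2.1 = ((dser (gc (x, false)) n : ℝ) : ℂ) +
      r3 * ((dser (gc (x, true)) n : ℝ) : ℂ) := by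
  have h1 := (Complex.hasSum_ofReal.2
    (dser_summable (gc_bound (x, false)) (show x.2.1.length + 1 + 2 ≤ n by omega)).hasSum)
  have h2 := (Complex.hasSum_ofReal.2
    (dser_summable (gc_bound (x, true)) (show x.2.1.length + 1 + 2 ≤ n by omega)).hasSum)
  have h3 := h1.add (h2.mul_left r3)
  rw [mcv]
  refine Eq.trans (tsum_congr fun k => ?_) h3.tsum_eq
  rw [gc_apply _ (k + 1) (by omega), gc_apply _ (k + 1) (by omega), om_pow]
  simp only [if_true, Bool.false_eq_true, if_false]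
  have hk : ((k : ℂ) + 1) ≠ 0 := by
    have : ((k : ℂ) + 1) = ((k + 1 : ℕ) : ℂ) := by push_cast; ring
    rw [this]
    exact_mod_cast Nat.succ_ne_zero k
  push_cast
  rw [pow_add]
  field_simp

lemma cv_eq (n : ℕ) (x : (Fin (h + 1) × Λ) × Bool) (hn : x.1.2.1.length + 3 ≤ n) :
    cv n x = dser (gc x) n := by
  obtain ⟨x, b⟩ := x
  have h1 := mcv_eq n x hn
  have h3 : Real.sqrt 3 ≠ 0 := by
    rw [Real.sqrt_ne_zero (by norm_num)]
    norm_num
  have h4 : r3.re = 0 := by simp [r3]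
  have h5 : r3.im = Real.sqrt 3 := by simp [r3]
  cases b
  · rw [cv]
    simp only [Bool.false_eq_true, if_false]
    rw [h1]
    simp [h4]
  · rw [cv]
    simp only [if_true]
    rw [h1]
    simp [h4, h5]

end Pool.Agent.V8H86.CV
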