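import Mathlib
import Pool.Agent.V8H86.CV.Basic

/-!
# Real parts of polynomials in complex values (helper86)
-/

set_option autoImplicit false

namespace Pool.Agent.V8H86.CV

open MvPolynomial Pool.Agent.TH883.Zg

section

variable {J : Type}

/-- `F = U + √-3 V` -/
def Rp (F : MvPolynomial (J × Bool) ℂ) (U V : MvPolynomial (J × Bool) ℤ) : Prop :=
  F = MvPolynomial.map (Int.castRingHom ℂ) U +
    MvPolynomial.C r3 * MvPolynomial.map (Int.castRingHom ℂ) V

lemma Rp_one : Rp (1 : MvPolynomial (J × Bool) ℂ) 1 0 := by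
  unfold Rp
  simp

lemma Rp_mul {F G : MvPolynomial (J × Bool) ℂ} {U V U' V' : MvPolynomial (J × Bool) ℤ}
    (h : Rp F U V) (h' : Rp G U' V') : Rp (F * G) (U * U' - 3 * (V * V')) (U * V' + V * U') := by
  unfold Rp at *
  rw [h, h']
  simp only [map_add, map_sub, map_mul, map_ofNat]
  have h3 : (MvPolynomial.C r3 : MvPolynomial (J × Bool) ℂ) * MvPolynomial.C r3 = -3 := by
    rw [← map_mul, r3_sq, map_neg]
    congr 1
  linear_combination (MvPolynomial.map (Int.castRingHom ℂ) V *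
    MvPolynomial.map (Int.castRingHom ℂ) V') * h3

lemma Rp_pow {F : MvPolynomial (J × Bool) ℂ} {U V : MvPolynomial (J × Bool) ℤ}
    (h : Rp F U V) (n : ℕ) : ∃ U' V', Rp (F ^ n) U' V' := by
  induction n with
  | zero => exact ⟨1, 0, by rw [pow_zero]; exact Rp_one⟩
  | succ n ih =>
    obtain ⟨U', V', h'⟩ := ih
    exact ⟨_, _, by rw [pow_succ]; exact Rp_mul h' h⟩

lemma Rp_prod {ι : Type} (s : Finset ι) (F : ι → MvPolynomial (J × Bool) ℂ)
    (h : ∀ i ∈ s, ∃ U V, Rp (F i) U V) : ∃ U V, Rp (∏ i ∈ s, F i) U V := by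
  classical
  induction s using Finset.induction_on with
  | empty => exact ⟨1, 0, by rw [Finset.prod_empty]; exact Rp_one⟩
  | insert a s ha ih =>
    obtain ⟨U, V, h1⟩ := h a (Finset.mem_insert_self _ _)
    obtain ⟨U', V', h2⟩ := ih fun i hi => h i (Finset.mem_insert_of_mem hi)
    exact ⟨_, _, by rw [Finset.prod_insert ha]; exact Rp_mul h1 h2⟩

variable [Fintype J]

/-- the monomials in `A_j + √-3 B_j` -/
noncomputable def mon {d : ℕ} (e : J → Fin (d + 1)) : MvPolynomial (J × Bool) ℂ :=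
  ∏ j, (X (j, false) + MvPolynomial.C r3 * X (j, true)) ^ ((e j : Fin (d + 1)) : ℕ)

lemma exists_mon {d : ℕ} (e : J → Fin (d + 1)) : ∃ U V, Rp (mon e) U V := by
  refine Rp_prod _ _ fun j _ => ?_
  refine Rp_pow (U := X (j, false)) (V := X (j, true)) ?_ _
  unfold Rp
  simp

/-- the real part of a monomial -/
noncomputable def mU {d : ℕ} (e : J → Fin (d + 1)) : MvPolynomial (J × Bool) ℤ :=
  (exists_mon e).choose

/-- the imaginary part of a monomial, divided by `√3` -/
noncomputable def mV {d : ℕ} (e : J → Fin (d + 1)) : MvPolynomial (J × Bool) ℤ :=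
  (exists_mon e).choose_spec.choose

lemma mon_spec {d : ℕ} (e : J → Fin (d + 1)) : Rp (mon e) (mU e) (mV e) :=
  (exists_mon e).choose_spec.choose_spec

/-- the conjugate monomial -/
lemma mon_conj {d : ℕ} (e : J → Fin (d + 1)) :
    ∏ j, (X (j, false) - MvPolynomial.C r3 * X (j, true)) ^ ((e j : Fin (d + 1)) : ℕ) =
    MvPolynomial.map (Int.castRingHom ℂ) (mU e) -
      MvPolynomial.C r3 * MvPolynomial.map (Int.castRingHom ℂ) (mV e) := by
  have h1 : MvPolynomial.map (starRingEnd ℂ) (mon e) = _ :=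
    congrArg (MvPolynomial.map (starRingEnd ℂ)) (mon_spec e)
  have hr : (starRingEnd ℂ) r3 = -r3 := by
    rw [r3, map_mul, Complex.conj_ofReal, Complex.conj_I]
    ring
  have hc : (starRingEnd ℂ).comp (Int.castRingHom ℂ) = Int.castRingHom ℂ :=
    RingHom.ext_int _ _
  rw [map_add, map_mul, MvPolynomial.map_map, MvPolynomial.map_map, hc, MvPolynomial.map_C, hr,
    mon, map_prod] at h1
  simp only [map_pow, map_add, map_mul, MvPolynomial.map_X, MvPolynomial.map_C, hr] at h1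
  rw [map_neg] at h1
  simp only [neg_mul, ← sub_eq_add_neg] at h1
  exact h1

/-- the substitution `A_j ↦ T_j`, `B_j ↦ T_j / √-3` -/
noncomputable def Psi : MvPolynomial (J × Bool) ℂ →ₐ[ℂ] MvPolynomial J ℂ :=
  MvPolynomial.aeval fun x => if x.2 then MvPolynomial.C (r3⁻¹) * X x.1 else X x.1

omit [Fintype J] in
lemma Psi_f (j : J) : Psi (X (j, false) : MvPolynomial (J × Bool) ℂ) = X j := by
  rw [Psi, MvPolynomial.aeval_X]
  simp

omit [Fintype J] in
lemma Psi_t (j : J) : Psi (X (j, true) : MvPolynomial (J × Bool) ℂ) =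
    MvPolynomial.C (r3⁻¹) * X j := by
  rw [Psi, MvPolynomial.aeval_X]
  simp

lemma r3_ne : r3 ≠ 0 := by
  intro h
  have := r3_sq
  rw [h] at this
  norm_num at this

omit [Fintype J] in
lemma Psi_C (c : ℂ) : Psi (MvPolynomial.C c : MvPolynomial (J × Bool) ℂ) = MvPolynomial.C c := by
  rw [Psi, MvPolynomial.aeval_C]
  rfl

lemma Psi_sum {d : ℕ} (e : J → Fin (d + 1)) :
    Psi (MvPolynomial.map (Int.castRingHom ℂ) (mU e)) +
      MvPolynomial.C r3 * Psi (MvPolynomial.map (Int.castRingHom ℂ) (mV e)) =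
    MvPolynomial.monomial (exq e) (∏ j, (2 : ℂ) ^ ((e j : Fin (d + 1)) : ℕ)) := by
  have h1 := congrArg Psi (mon_spec e)
  rw [map_add, map_mul, Psi_C] at h1
  rw [← h1, mon, map_prod]
  have h2 : ∀ j : J, Psi ((X (j, false) + MvPolynomial.C r3 * X (j, true) :
      MvPolynomial (J × Bool) ℂ) ^ ((e j : Fin (d + 1)) : ℕ)) =
      MvPolynomial.C ((2 : ℂ) ^ ((e j : Fin (d + 1)) : ℕ)) *
        X j ^ ((e j : Fin (d + 1)) : ℕ) := by
    intro j
    rw [map_pow, map_add, map_mul, Psi_C, Psi_f, Psi_t, ← mul_assoc, ← map_mul,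
      mul_inv_cancel₀ r3_ne, map_one, one_mul, map_pow, ← mul_pow]
    congr 1
    rw [← two_mul]
    congr 1
  rw [Finset.prod_congr rfl fun j _ => h2 j, Finset.prod_mul_distrib, ← map_prod,
    MvPolynomial.monomial_eq, Finsupp.prod_fintype _ _ (fun _ => pow_zero _)]
  rfl

lemma Psi_diff {d : ℕ} (e : J → Fin (d + 1)) (he : ∃ j, e j ≠ 0) :
    Psi (MvPolynomial.map (Int.castRingHom ℂ) (mU e)) -
      MvPolynomial.C r3 * Psi (MvPolynomial.map (Int.castRingHom ℂ) (mV e)) = 0 := by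
  have h1 := congrArg Psi (mon_conj e)
  rw [map_sub, map_mul, Psi_C] at h1
  rw [← h1, map_prod]
  obtain ⟨j, hj⟩ := he
  refine Finset.prod_eq_zero (Finset.mem_univ j) ?_
  rw [map_pow, map_sub, map_mul, Psi_C, Psi_f, Psi_t, ← mul_assoc, ← map_mul,
    mul_inv_cancel₀ r3_ne, map_one, one_mul, sub_self, zero_pow]
  intro h
  apply hj
  exact Fin.ext h

lemma Psi_U {d : ℕ} (e : J → Fin (d + 1)) (he : ∃ j, e j ≠ 0) :
    Psi (MvPolynomial.map (Int.castRingHom ℂ) (mU e)) =
    MvPolynomial.monomial (exq e) (1 / 2 * ∏ j, (2 : ℂ) ^ ((e j : Fin (d + 1)) : ℕ)) := by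
  have h1 := Psi_sum e
  have h2 := Psi_diff e he
  have h3 : (MvPolynomial.C (1 / 2 : ℂ) : MvPolynomial J ℂ) * 2 = 1 := by
    rw [show (2 : MvPolynomial J ℂ) = MvPolynomial.C 2 from rfl, ← map_mul]
    norm_num
  rw [← MvPolynomial.C_mul_monomial, ← h1]
  linear_combination (-(Psi (MvPolynomial.map (Int.castRingHom ℂ) (mU e)))) * h3 +
    MvPolynomial.C (1 / 2 : ℂ) * h2

lemma Psi_V {d : ℕ} (e : J → Fin (d + 1)) (he : ∃ j, e j ≠ 0) :
    Psi (MvPolynomial.map (Int.castRingHom ℂ) (mV e)) =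
    MvPolynomial.monomial (exq e)
      (r3⁻¹ * (1 / 2 * ∏ j, (2 : ℂ) ^ ((e j : Fin (d + 1)) : ℕ))) := by
  have h1 := Psi_U e he
  have h2 := Psi_diff e he
  rw [← MvPolynomial.C_mul_monomial, ← h1]
  have h3 : (MvPolynomial.C (r3⁻¹) : MvPolynomial J ℂ) * MvPolynomial.C r3 = 1 := by
    rw [← map_mul, inv_mul_cancel₀ r3_ne, map_one]
  linear_combination (-(Psi (MvPolynomial.map (Int.castRingHom ℂ) (mV e)))) * h3 -
    MvPolynomial.C (r3⁻¹) * h2

/-- **independence of the real and imaginary parts of the monomials** -/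
theorem core [DecidableEq J] {d : ℕ} (v w : (J → Fin (d + 1)) → ℚ) (c : ℂ)
    (h : ∑ e, (MvPolynomial.C ((v e : ℚ) : ℂ) * MvPolynomial.map (Int.castRingHom ℂ) (mU e) +
      MvPolynomial.C ((w e : ℚ) : ℂ) * MvPolynomial.map (Int.castRingHom ℂ) (mV e)) =
      MvPolynomial.C c) (e : J → Fin (d + 1)) (he : ∃ j, e j ≠ 0) : v e = 0 ∧ w e = 0 := by
  classical
  have h1 := congrArg (fun F => MvPolynomial.coeff (exq e) (Psi F)) h
  simp only [map_sum, map_add, map_mul, Psi_C, MvPolynomial.coeff_sum, MvPolynomial.coeff_add,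
    MvPolynomial.coeff_C_mul] at h1
  have hne : exq e ≠ 0 := by
    intro h0
    obtain ⟨j, hj⟩ := he
    apply hj
    have h2 := DFunLike.congr_fun h0 j
    rw [exq_apply] at h2
    exact Fin.ext h2
  rw [MvPolynomial.coeff_C, if_neg (Ne.symm hne)] at h1
  have hz : ∀ e' : J → Fin (d + 1), e' ≠ e →
      MvPolynomial.coeff (exq e) (Psi (MvPolynomial.map (Int.castRingHom ℂ) (mU e'))) = 0 ∧
      MvPolynomial.coeff (exq e) (Psi (MvPolynomial.map (Int.castRingHom ℂ) (mV e'))) = 0 := by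
    intro e' hee
    by_cases h0 : ∃ j, e' j ≠ 0
    · rw [Psi_U e' h0, Psi_V e' h0, MvPolynomial.coeff_monomial, MvPolynomial.coeff_monomial,
        if_neg (fun hh => hee (exq_inj hh)), if_neg (fun hh => hee (exq_inj hh))]
      exact ⟨rfl, rfl⟩
    · push Not at h0
      have h3 : ∀ j : J, ((e' j : Fin (d + 1)) : ℕ) = 0 := fun j => by rw [h0 j]; rfl
      have h4 := Psi_sum e'
      have h5 := congrArg Psi (mon_conj e')
      rw [map_sub, map_mul, Psi_C] at h5
      simp only [h3, pow_zero, Finset.prod_const_one, map_one] at h4 h5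
      have h6 : exq e' = 0 := by
        ext j
        rw [exq_apply, h3 j]
        rfl
      have h7 : (MvPolynomial.C (1 / 2 : ℂ) : MvPolynomial J ℂ) * 2 = 1 := by
        rw [show (2 : MvPolynomial J ℂ) = MvPolynomial.C 2 from rfl, ← map_mul]
        norm_num
      have h8 : (MvPolynomial.monomial (exq e') (1 : ℂ) : MvPolynomial J ℂ) = 1 := by
        rw [h6]
        rfl
      rw [h8] at h4
      have h9 : Psi (MvPolynomial.map (Int.castRingHom ℂ) (mU e')) = (1 : MvPolynomial J ℂ) := by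
        linear_combination (-(Psi (MvPolynomial.map (Int.castRingHom ℂ) (mU e')))) * h7 +
          h7 + MvPolynomial.C (1 / 2 : ℂ) * h4 - MvPolynomial.C (1 / 2 : ℂ) * h5
      have h10 : Psi (MvPolynomial.map (Int.castRingHom ℂ) (mV e')) = (0 : MvPolynomial J ℂ) := by
        have h11 : (MvPolynomial.C (r3⁻¹) : MvPolynomial J ℂ) * MvPolynomial.C r3 = 1 := by
          rw [← map_mul, inv_mul_cancel₀ r3_ne, map_one]
        rw [h9] at h4
        linear_combination (-(Psi (MvPolynomial.map (Int.castRingHom ℂ) (mV e')))) * h11 +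
          MvPolynomial.C (r3⁻¹) * h4
      rw [h9, h10]
      refine ⟨?_, MvPolynomial.coeff_zero _⟩
      rw [show (1 : MvPolynomial J ℂ) = MvPolynomial.C 1 from (map_one _).symm,
        MvPolynomial.coeff_C, if_neg (Ne.symm hne)]
  rw [Finset.sum_eq_single e (fun e' _ hee => by rw [(hz e' hee).1, (hz e' hee).2]; ring)
    (fun hh => absurd (Finset.mem_univ e) hh), Psi_U e he, Psi_V e he,
    MvPolynomial.coeff_monomial, MvPolynomial.coeff_monomial, if_pos rfl, if_pos rfl] at h1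
  have hp : (∏ j, (2 : ℂ) ^ ((e j : Fin (d + 1)) : ℕ)) ≠ 0 :=
    Finset.prod_ne_zero_iff.2 fun j _ => pow_ne_zero _ two_ne_zero
  have h2 : ((v e : ℚ) : ℂ) * r3 + ((w e : ℚ) : ℂ) = 0 := by
    have h3 : (((v e : ℚ) : ℂ) * r3 + ((w e : ℚ) : ℂ)) *
        (r3⁻¹ * (1 / 2 * ∏ j, (2 : ℂ) ^ ((e j : Fin (d + 1)) : ℕ))) = 0 := by
      rw [← h1]
      field_simp [r3_ne]
    rcases mul_eq_zero.1 h3 with h4 | h4
    · exact h4
    · exfalso
      have h5 : r3⁻¹ * (1 / 2 * ∏ j, (2 : ℂ) ^ ((e j : Fin (d + 1)) : ℕ)) ≠ 0 :=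
        mul_ne_zero (inv_ne_zero r3_ne) (mul_ne_zero (by norm_num) hp)
      exact h5 h4
  have h6 : r3.re = 0 := by simp [r3]
  have h7 : r3.im = Real.sqrt 3 := by simp [r3]
  have h8 : Real.sqrt 3 ≠ 0 := by
    rw [Real.sqrt_ne_zero (by norm_num)]
    norm_num
  have hre := congrArg Complex.re h2
  have him := congrArg Complex.im h2
  simp only [Complex.add_re, Complex.mul_re, Complex.add_im, Complex.mul_im, h6, h7,
    Complex.ratCast_re, Complex.ratCast_im, Complex.zero_re, Complex.zero_im, mul_zero, zero_mul,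
    sub_zero, zero_add, add_zero] at hre him
  constructor
  · have h9 : (v e : ℝ) = 0 := by
      rcases mul_eq_zero.1 him with h | h
      · exact h
      · exact absurd h h8
    exact_mod_cast h9
  · exact_mod_cast hre

end

end Pool.Agent.V8H86.CV
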