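import Mathlib
import Pool.Agent.V8H86.CV.Cpx

/-!
# Polynomials in multiple Clausen values with one large argument (helper86)
-/

set_option autoImplicit false

namespace Pool.Agent.V8H86.CV

open Pool.Agent.Y760.RT Pool.Agent.TH507.ZS Pool.Agent.TH507.HS Pool.Agent.TH883.Zg
  Pool.Agent.R473.DW Pool.Agent.R473.TB Filter

variable {Λ : Finset (List ℕ+)} {h : ℕ}

/-- a bound for the lengths -/
lemma exists_len (Λ : Finset (List ℕ+)) : ∃ n1 : ℕ, ∀ w ∈ Λ, w.length + 3 ≤ n1 := by
  refine ⟨∑ w ∈ Λ, (w.length + 3), fun w hw => ?_⟩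
  exact Finset.single_le_sum (f := fun w : List ℕ+ => w.length + 3) (fun _ _ => Nat.zero_le _) hw

lemma cv_ev (Λ : Finset (List ℕ+)) (h : ℕ) : ∃ n1 : ℕ, ∀ n : ℕ, n1 ≤ n →
    (fun x : (Fin (h + 1) × Λ) × Bool => dser (gc x) n) = cv n := by
  obtain ⟨n1, hn1⟩ := exists_len Λ
  refine ⟨n1, fun n hn => ?_⟩
  funext x
  exact (cv_eq n x ((hn1 _ x.1.2.2).trans hn)).symm

/-- **polynomials in the real and imaginary parts** -/
theorem real_main (Λ : Finset (List ℕ+)) (h d : ℕ) (C : ℝ) :
    ∃ B : ℝ, 1 < B ∧ ∃ n0 : ℕ, ∀ n : ℕ, n0 ≤ n →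
      ∀ P : MvPolynomial ((Fin (h + 1) × Λ) × Bool) ℤ, P ≠ 0 → P.totalDegree ≤ d →
      (∀ e, |((P.coeff e : ℤ) : ℝ)| ≤ C ^ n) → (B ^ n)⁻¹ < |MvPolynomial.aeval (cv n) P| := by
  obtain ⟨B, hB, n0, hmain⟩ := alg_main (gc (Λ := Λ) (h := h)) gc_pb gc_prime d C
  obtain ⟨n1, hn1⟩ := cv_ev Λ h
  refine ⟨B, hB, n0 + n1, fun n hn P hP hPd hPC => ?_⟩
  have h1 := hmain n (by omega) P hP hPd hPC
  rw [hn1 n (by omega)] at h1
  exact h1

/-- evaluation of the monomials -/
lemma ev_mon {J : Type} [Fintype J] {d : ℕ} (e : J → Fin (d + 1)) (x : J × Bool → ℝ) :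
    (∏ j, ((x (j, false) : ℂ) + r3 * (x (j, true) : ℂ)) ^ ((e j : Fin (d + 1)) : ℕ)) =
    ((MvPolynomial.aeval x (mU e) : ℝ) : ℂ) + r3 * ((MvPolynomial.aeval x (mV e) : ℝ) : ℂ) := by
  have h1 := congrArg (MvPolynomial.aeval fun y => ((x y : ℝ) : ℂ)) (mon_spec e)
  have h2 : ∀ F : MvPolynomial (J × Bool) ℤ, MvPolynomial.aeval (fun y => ((x y : ℝ) : ℂ))
      (MvPolynomial.map (Int.castRingHom ℂ) F) = ((MvPolynomial.aeval x F : ℝ) : ℂ) := by
    intro F
    rw [MvPolynomial.aeval_def, MvPolynomial.eval₂_map, MvPolynomial.aeval_def,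
      ← Complex.ofRealHom_eq_coe, MvPolynomial.hom_eval₂]
    congr 1
  rw [map_add, map_mul, MvPolynomial.aeval_C, h2, h2, mon, map_prod] at h1
  simp only [map_pow, map_add, map_mul, MvPolynomial.aeval_X, MvPolynomial.aeval_C,
    Algebra.algebraMap_self, RingHom.id_apply] at h1
  exact h1

/-- a polynomial of bounded degree as a sum over exponent vectors -/
lemma aeval_exq {J : Type} [Fintype J] [DecidableEq J] {d : ℕ} (P : MvPolynomial J ℤ) (hPd : P.totalDegree ≤ d)
    (z : J → ℂ) : MvPolynomial.aeval z P = ∑ e : J → Fin (d + 1),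
      ((P.coeff (exq e) : ℤ) : ℂ) * ∏ j, z j ^ ((e j : Fin (d + 1)) : ℕ) := by
  classical
  rw [MvPolynomial.aeval_def, MvPolynomial.eval₂_eq']
  have h5 : ∑ e : J → Fin (d + 1), ((P.coeff (exq e) : ℤ) : ℂ) *
      ∏ j, z j ^ ((e j : Fin (d + 1)) : ℕ) =
      ∑ m ∈ (Finset.univ : Finset (J → Fin (d + 1))).image exq, ((P.coeff m : ℤ) : ℂ) *
        ∏ j, z j ^ (m j) := by
    rw [Finset.sum_image (fun _ _ _ _ hee => exq_inj hee)]
    rfl
  rw [h5]
  refine Finset.sum_subset ?_ ?_
  · intro m hm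
    obtain ⟨e, he⟩ := exq_surj hPd hm
    exact Finset.mem_image.2 ⟨e, Finset.mem_univ _, he⟩
  · intro m _ hm
    rw [MvPolynomial.notMem_support_iff.1 hm]
    simp

/-- **polynomials in the complex numbers** -/
theorem cpx_main {J : Type} [Fintype J] (g : J × Bool → ℕ → ℝ)
    (hreal : ∀ (d : ℕ) (C : ℝ), ∃ B : ℝ, 1 < B ∧ ∃ n0 : ℕ, ∀ n : ℕ, n0 ≤ n →
      ∀ P : MvPolynomial (J × Bool) ℤ, P ≠ 0 → P.totalDegree ≤ d →
      (∀ e, |((P.coeff e : ℤ) : ℝ)| ≤ C ^ n) →
      (B ^ n)⁻¹ < |MvPolynomial.aeval (fun x => g x n) P|) (d : ℕ) (C : ℝ) :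
    ∃ B : ℝ, 1 < B ∧ ∃ n0 : ℕ, ∀ n : ℕ, n0 ≤ n →
      ∀ P Q : MvPolynomial J ℤ, (P ≠ 0 ∨ ∀ c : ℤ, Q ≠ MvPolynomial.C c) →
      P.totalDegree ≤ d → Q.totalDegree ≤ d →
      (∀ e, |((P.coeff e : ℤ) : ℝ)| ≤ C ^ n) → (∀ e, |((Q.coeff e : ℤ) : ℝ)| ≤ C ^ n) →
      (B ^ n)⁻¹ < |(MvPolynomial.aeval (fun j => (g (j, false) n : ℂ) + r3 * (g (j, true) n : ℂ)) P +
        r3 * MvPolynomial.aeval (fun j => (g (j, false) n : ℂ) + r3 * (g (j, true) n : ℂ)) Q).re| := by
  classical
  -- degrees and coefficients of the parts of the monomials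
  set D : ℕ := ∑ e : J → Fin (d + 1), ((mU e).totalDegree + (mV e).totalDegree) with hD
  have hDU : ∀ e : J → Fin (d + 1), (mU e).totalDegree ≤ D := fun e =>
    (Nat.le_add_right _ _).trans (Finset.single_le_sum
      (f := fun e : J → Fin (d + 1) => (mU e).totalDegree + (mV e).totalDegree)
      (fun _ _ => Nat.zero_le _) (Finset.mem_univ e))
  have hDV : ∀ e : J → Fin (d + 1), (mV e).totalDegree ≤ D := fun e =>
    (Nat.le_add_left _ _).trans (Finset.single_le_sum
      (f := fun e : J → Fin (d + 1) => (mU e).totalDegree + (mV e).totalDegree)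
      (fun _ _ => Nat.zero_le _) (Finset.mem_univ e))
  have hcb : ∀ F : MvPolynomial (J × Bool) ℤ, ∃ K : ℕ, ∀ m, |((F.coeff m : ℤ) : ℝ)| ≤ K := by
    intro F
    refine ⟨∑ m ∈ F.support, (F.coeff m).natAbs, fun m => ?_⟩
    by_cases hm : m ∈ F.support
    · have h1 := Finset.single_le_sum (f := fun m => (F.coeff m).natAbs)
        (fun _ _ => Nat.zero_le _) hm
      have h2 : |((F.coeff m : ℤ) : ℝ)| = (((F.coeff m).natAbs : ℕ) : ℝ) := by
        rw [Nat.cast_natAbs, Int.cast_abs]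
      rw [h2]
      exact_mod_cast h1
    · rw [MvPolynomial.notMem_support_iff.1 hm]
      simp only [Int.cast_zero, abs_zero]
      exact Nat.cast_nonneg _
  choose KU hKU using fun e : J → Fin (d + 1) => hcb (mU e)
  choose KV hKV using fun e : J → Fin (d + 1) => hcb (mV e)
  set K : ℕ := ∑ e, (KU e + 3 * KV e) + 1 with hK
  obtain ⟨B, hB, n0, hmain⟩ := hreal D (K * |C|)
  refine ⟨B, hB, n0 + 1, fun n hn P Q hPQ hPd hQd hPC hQC => ?_⟩
  set W : MvPolynomial (J × Bool) ℤ := ∑ e : J → Fin (d + 1),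
    (MvPolynomial.C (P.coeff (exq e)) * mU e + MvPolynomial.C (-3 * Q.coeff (exq e)) * mV e)
    with hW
  have hWd : W.totalDegree ≤ D := by
    refine MvPolynomial.totalDegree_finsetSum_le fun e _ => ?_
    refine (MvPolynomial.totalDegree_add _ _).trans (max_le ?_ ?_)
    · refine (MvPolynomial.totalDegree_mul _ _).trans ?_
      rw [MvPolynomial.totalDegree_C, zero_add]
      exact hDU e
    · refine (MvPolynomial.totalDegree_mul _ _).trans ?_
      rw [MvPolynomial.totalDegree_C, zero_add]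
      exact hDV e
  have hWC : ∀ m, |((W.coeff m : ℤ) : ℝ)| ≤ (K * |C|) ^ n := by
    intro m
    have hCn : C ^ n ≤ |C| ^ n := by
      rw [← abs_pow]
      exact le_abs_self _
    have hCn0 : 0 ≤ |C| ^ n := by positivity
    rw [hW, MvPolynomial.coeff_sum]
    push_cast
    refine (Finset.abs_sum_le_sum_abs _ _).trans ?_
    have h1 : ∀ e : J → Fin (d + 1), |((MvPolynomial.coeff m
        (MvPolynomial.C (P.coeff (exq e)) * mU e +
          MvPolynomial.C (-3 * Q.coeff (exq e)) * mV e) : ℤ) : ℝ)| ≤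
        (((KU e + 3 * KV e : ℕ) : ℝ)) * |C| ^ n := by
      intro e
      rw [MvPolynomial.coeff_add, MvPolynomial.coeff_C_mul, MvPolynomial.coeff_C_mul]
      push_cast
      refine (abs_add_le _ _).trans ?_
      rw [abs_mul, abs_mul, abs_mul]
      have h2 := (hPC (exq e)).trans hCn
      have h3 := (hQC (exq e)).trans hCn
      have h4 := hKU e m
      have h5 := hKV e m
      have h6 : |((P.coeff (exq e) : ℤ) : ℝ)| * |((MvPolynomial.coeff m (mU e) : ℤ) : ℝ)| ≤
          |C| ^ n * KU e := mul_le_mul h2 h4 (abs_nonneg _) hCn0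
      have h7 : |((Q.coeff (exq e) : ℤ) : ℝ)| * |((MvPolynomial.coeff m (mV e) : ℤ) : ℝ)| ≤
          |C| ^ n * KV e := mul_le_mul h3 h5 (abs_nonneg _) hCn0
      have h8 : |(-3 : ℝ)| = 3 := by norm_num
      rw [h8]
      nlinarith
    refine (Finset.sum_le_sum fun e _ => h1 e).trans ?_
    rw [← Finset.sum_mul, mul_pow, ← Nat.cast_sum]
    refine mul_le_mul_of_nonneg_right ?_ hCn0
    have h2 : (∑ e, (KU e + 3 * KV e) : ℕ) ≤ K ^ n := by
      calc (∑ e, (KU e + 3 * KV e) : ℕ) ≤ K := by omega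
        _ = K ^ 1 := (pow_one _).symm
        _ ≤ K ^ n := Nat.pow_le_pow_right (by omega) (by omega)
    exact_mod_cast h2
  have hmap : MvPolynomial.map (Int.castRingHom ℂ) W = ∑ e : J → Fin (d + 1),
      (MvPolynomial.C ((((P.coeff (exq e) : ℤ) : ℚ) : ℚ) : ℂ) *
        MvPolynomial.map (Int.castRingHom ℂ) (mU e) +
      MvPolynomial.C (((-3 * ((Q.coeff (exq e) : ℤ) : ℚ) : ℚ) : ℚ) : ℂ) *
        MvPolynomial.map (Int.castRingHom ℂ) (mV e)) := by
    rw [hW, map_sum]
    refine Finset.sum_congr rfl fun e _ => ?_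
    rw [map_add, map_mul, map_mul, MvPolynomial.map_C, MvPolynomial.map_C]
    congr 3
    simp
  have hW0 : W ≠ 0 := by
    intro h0
    rw [h0, map_zero] at hmap
    have h1 : ∀ e : J → Fin (d + 1), (∃ j, e j ≠ 0) → P.coeff (exq e) = 0 ∧
        Q.coeff (exq e) = 0 := by
      intro e he
      obtain ⟨h2, h3⟩ := core (fun e => ((P.coeff (exq e) : ℤ) : ℚ))
        (fun e => -3 * ((Q.coeff (exq e) : ℤ) : ℚ)) 0 (by rw [← hmap, map_zero]) e he
      simp only [Int.cast_eq_zero, mul_eq_zero, neg_eq_zero, OfNat.ofNat_ne_zero, false_or]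
        at h2 h3
      exact ⟨h2, h3⟩
    have hex : ∀ F : MvPolynomial J ℤ, F.totalDegree ≤ d →
        (∀ e : J → Fin (d + 1), (∃ j, e j ≠ 0) → F.coeff (exq e) = 0) →
        F = MvPolynomial.C (F.coeff 0) := by
      intro F hF hF0
      ext m
      rw [MvPolynomial.coeff_C]
      by_cases hm : 0 = m
      · rw [if_pos hm, hm]
      · rw [if_neg hm]
        by_contra hm2
        obtain ⟨e, he⟩ := exq_surj hF (MvPolynomial.mem_support_iff.2 hm2)
        apply hm2
        rw [← he]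
        refine hF0 e ?_
        by_contra hno
        push Not at hno
        apply hm
        rw [← he]
        ext j
        rw [exq_apply, hno j]
        rfl
    have hQ := hex Q hQd fun e he => (h1 e he).2
    have hP := hex P hPd fun e he => (h1 e he).1
    rcases hPQ with h2 | h2
    · -- the constant term
      have h3 : P.coeff 0 ≠ 0 := by
        intro h4
        apply h2
        rw [hP, h4, map_zero]
      have h5 := congrArg (MvPolynomial.aeval (fun _ : J × Bool => (0 : ℝ))) h0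
      rw [map_zero, hW, map_sum] at h5
      -- evaluate at a point
      have h6 := fun e : J → Fin (d + 1) => ev_mon e (fun _ : J × Bool => (0 : ℝ))
      have h7 : ∀ e : J → Fin (d + 1), (¬ ∃ j, e j ≠ 0) →
          MvPolynomial.aeval (fun _ : J × Bool => (0 : ℝ)) (mU e) = 1 := by
        intro e he
        push Not at he
        have h8 := h6 e
        have h9 : ∀ j : J, ((e j : Fin (d + 1)) : ℕ) = 0 := fun j => by rw [he j]; rfl
        simp only [h9, pow_zero, Finset.prod_const_one] at h8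
        have h10 := congrArg Complex.re h8
        have h11 : r3.re = 0 := by simp [r3]
        simp only [Complex.one_re, Complex.add_re, Complex.ofReal_re, Complex.mul_re, h11,
          Complex.ofReal_im, mul_zero, zero_mul, sub_zero, add_zero] at h10
        exact h10.symm
      rw [Finset.sum_eq_single (fun _ => 0)] at h5
      · have e1 : exq (fun _ : J => (0 : Fin (d + 1))) = 0 := by
          ext j
          rw [exq_apply]
          rfl
        rw [map_add, map_mul, map_mul, MvPolynomial.aeval_C, MvPolynomial.aeval_C,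
          h7 _ (by simp), e1] at h5
        have h12 : Q.coeff 0 * 0 = 0 := mul_zero _
        have h13 : MvPolynomial.aeval (fun _ : J × Bool => (0 : ℝ))
            (mV (fun _ : J => (0 : Fin (d + 1)))) = 0 := by
          have h8 := h6 (fun _ : J => (0 : Fin (d + 1)))
          rw [h7 _ (by simp)] at h8
          simp only [Fin.val_zero, pow_zero, Finset.prod_const_one, Complex.ofReal_one] at h8
          have h14 : r3 * ((MvPolynomial.aeval (fun _ : J × Bool => (0 : ℝ))
            (mV (fun _ : J => (0 : Fin (d + 1)))) : ℝ) : ℂ) = 0 := by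
            linear_combination -h8
          rcases mul_eq_zero.1 h14 with h15 | h15
          · exact absurd h15 r3_ne
          · exact_mod_cast h15
        rw [h13, mul_zero, add_zero, mul_one] at h5
        apply h3
        simpa using h5
      · intro e _ hne
        have h8 : ∃ j, e j ≠ 0 := by
          by_contra hno
          push Not at hno
          exact hne (funext hno)
        rw [(h1 e h8).1, (h1 e h8).2]
        simp
      · intro hh
        exact absurd (Finset.mem_univ _) hh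
    · exact h2 _ hQ
  have h1 := hmain n (by omega) W hW0 hWd hWC
  have h2 : (MvPolynomial.aeval (fun j => (g (j, false) n : ℂ) + r3 * (g (j, true) n : ℂ)) P +
      r3 * MvPolynomial.aeval (fun j => (g (j, false) n : ℂ) + r3 * (g (j, true) n : ℂ)) Q).re =
      MvPolynomial.aeval (fun x => g x n) W := by
    rw [aeval_exq P hPd, aeval_exq Q hQd, Finset.mul_sum, ← Finset.sum_add_distrib,
      Complex.re_sum, hW, map_sum]
    refine Finset.sum_congr rfl fun e _ => ?_
    rw [ev_mon e (fun x => g x n), map_add, map_mul, map_mul, MvPolynomial.aeval_C,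
      MvPolynomial.aeval_C]
    set u : ℝ := MvPolynomial.aeval (fun x => g x n) (mU e)
    set v : ℝ := MvPolynomial.aeval (fun x => g x n) (mV e)
    have h3 : ((P.coeff (exq e) : ℤ) : ℂ) * ((u : ℂ) + r3 * (v : ℂ)) +
        r3 * (((Q.coeff (exq e) : ℤ) : ℂ) * ((u : ℂ) + r3 * (v : ℂ))) =
        (((P.coeff (exq e) : ℤ) * u + (-3 * (Q.coeff (exq e) : ℤ)) * v : ℝ) : ℂ) +
        r3 * ((((P.coeff (exq e) : ℤ) * v + (Q.coeff (exq e) : ℤ) * u : ℝ)) : ℂ) := by
      push_cast
      linear_combination ((Q.coeff (exq e) : ℤ) * (v : ℂ)) * r3_sq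
    have h11 : r3.re = 0 := by simp [r3]
    rw [h3, Complex.add_re, Complex.ofReal_re, Complex.mul_re, h11, Complex.ofReal_im, zero_mul,
      mul_zero, sub_zero, add_zero]
    simp
  rw [h2]
  exact h1

end Pool.Agent.V8H86.CV
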