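import Mathlib
import Pool.Agent.V8H86.CV.Main

/-!
# Forms, digits, and multiple Clausen values of a given weight (helper86)
-/

set_option autoImplicit false

namespace Pool.Agent.V8H86.CV

open Pool.Agent.Y760.RT Pool.Agent.TH507.ZS Pool.Agent.TH507.HS Pool.Agent.TH883.Zg
  Pool.Agent.R473.DW Pool.Agent.R473.TB Filter

section

variable {Λ : Finset (List ℕ+)} {h : ℕ} {σ : Type} [Fintype σ] [DecidableEq σ]
  (P : σ → MvPolynomial ((Fin (h + 1) × Λ) × Bool) ℚ)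
  (hP : ∀ (v : σ → ℚ) (c : ℚ), ∑ s, v s • P s = MvPolynomial.C c → v = 0)

include hP

/-- **linear forms with `S`-unit coefficients** -/
theorem cv_forms {S : Finset ℕ} (hS : ∀ p ∈ S, p.Prime) :
    ∃ K : ℕ, 2 ≤ K ∧ ∀ (R : ℕ) (C B : ℝ), 1 < B →
    ∃ n0 : ℕ, ∀ n : ℕ, n0 ≤ n → ∀ D : σ → ℚ, (∀ s, Sm S R (C * n) (D s)) → (∃ s, D s ≠ 0) →
    ∀ (p : ℤ) (i : σ), (B ^ n)⁻¹ * min 1 (|(D i : ℝ)| / (K : ℝ) ^ n) <
      |∑ s, (D s : ℝ) * MvPolynomial.aeval (cv n) (P s) - p| := by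
  obtain ⟨K, hK, hmain⟩ := alg_forms (gc (Λ := Λ) (h := h)) gc_pb gc_prime P hP hS
  obtain ⟨n1, hn1⟩ := cv_ev Λ h
  refine ⟨K, hK, fun R C B hB => ?_⟩
  obtain ⟨n0, hn0⟩ := hmain R C B hB
  refine ⟨n0 + n1, fun n hn D hD hD0 p i => ?_⟩
  have h1 := hn0 n (by omega) D hD hD0 p i
  rw [hn1 n (by omega)] at h1
  exact h1

/-- **digits** -/
theorem cv_digits {b : ℕ} (hb : 2 ≤ b) : ∃ κ : ℝ, ∀ ε C : ℝ, 0 < ε →
    ∃ n0 : ℕ, ∀ n : ℕ, n0 ≤ n →
    ∀ (s s' : σ) (i j : ℕ), (i : ℝ) ≤ C * n → (j : ℝ) ≤ C * n → κ * n ≤ max i j →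
    (s, i) ≠ (s', j) → ∃ l : ℕ, (l : ℝ) < ε * n ∧
      digit b (MvPolynomial.aeval (cv n) (P s)) (i + l) ≠
      digit b (MvPolynomial.aeval (cv n) (P s')) (j + l) := by
  obtain ⟨κ, hmain⟩ := alg_digits (gc (Λ := Λ) (h := h)) gc_pb gc_prime P hP hb
  obtain ⟨n1, hn1⟩ := cv_ev Λ h
  refine ⟨κ, fun ε C hε => ?_⟩
  obtain ⟨n0, hn0⟩ := hmain ε C hε
  refine ⟨n0 + n1, fun n hn s s' i j hi hj hm hne => ?_⟩
  have h1 := hn0 n (by omega) s s' i j hi hj hm hne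
  rw [hn1 n (by omega)] at h1
  exact h1

end

/-- the weight of a tuple -/
def wt (w : List ℕ+) : ℕ := (w.map fun a : ℕ+ => (a : ℕ)).sum

/-- **multiple Clausen values of weight `k`** -/
theorem wt_forms (Λ : Finset (List ℕ+)) {S : Finset ℕ} (hS : ∀ p ∈ S, p.Prime) :
    ∃ K : ℕ, 2 ≤ K ∧ ∀ (R : ℕ) (C B : ℝ), 1 < B →
    ∃ k0 : ℕ, ∀ k : ℕ, k0 ≤ k → ∀ D E : Λ → ℚ, (∀ w, Sm S R (C * k) (D w)) →
    (∀ w, Sm S R (C * k) (E w)) → (∃ w, D w ≠ 0 ∨ E w ≠ 0) →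
    ∀ (p : ℤ) (i : Λ), (B ^ k)⁻¹ * min 1 ((|(D i : ℝ)| + |(E i : ℝ)|) / (K : ℝ) ^ k) <
      |∑ w : Λ, ((D w : ℝ) * (mcv (k - wt w.1) w.1).re +
        (E w : ℝ) * ((mcv (k - wt w.1) w.1).im / Real.sqrt 3)) - p| := by
  classical
  set h : ℕ := ∑ w ∈ Λ, wt w with hh
  have hwt : ∀ w : Λ, wt w.1 ≤ h := fun w =>
    Finset.single_le_sum (f := wt) (fun _ _ => Nat.zero_le _) w.2
  set φ : Λ × Bool → (Fin (h + 1) × Λ) × Bool :=
    fun x => ((⟨h - wt x.1.1, by omega⟩, x.1), x.2) with hφ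
  have hφi : Function.Injective φ := by
    intro x y hxy
    have h1 : x.1 = y.1 := congrArg (fun z : (Fin (h + 1) × Λ) × Bool => z.1.2) hxy
    have h2 : x.2 = y.2 := congrArg (fun z : (Fin (h + 1) × Λ) × Bool => z.2) hxy
    exact Prod.ext h1 h2
  have hind : ∀ (v : Λ × Bool → ℚ) (c : ℚ), ∑ s, v s • (MvPolynomial.X (φ s) :
      MvPolynomial ((Fin (h + 1) × Λ) × Bool) ℚ) = MvPolynomial.C c → v = 0 := by
    intro v c hv
    funext s
    have h1 := congrArg (MvPolynomial.coeff (Finsupp.single (φ s) 1)) hv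
    rw [MvPolynomial.coeff_sum, MvPolynomial.coeff_C, if_neg (by
      intro h0
      have h2 := DFunLike.congr_fun h0 (φ s)
      rw [Finsupp.single_eq_same, Finsupp.coe_zero, Pi.zero_apply] at h2
      exact zero_ne_one h2), Finset.sum_eq_single s] at h1
    · rw [MvPolynomial.coeff_smul, MvPolynomial.coeff_X, if_pos rfl, smul_eq_mul, mul_one] at h1
      exact h1
    · intro t _ hts
      rw [MvPolynomial.coeff_smul, MvPolynomial.coeff_X, if_neg, smul_zero]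
      intro h2
      exact hts (hφi (Finsupp.single_left_injective one_ne_zero h2))
    · intro hh
      exact absurd (Finset.mem_univ _) hh
  obtain ⟨K, hK, hmain⟩ := cv_forms (fun s => (MvPolynomial.X (φ s) :
      MvPolynomial ((Fin (h + 1) × Λ) × Bool) ℚ)) hind hS
  refine ⟨K, hK, fun R C B hB => ?_⟩
  have hB2 : 1 < Real.sqrt B := by
    rw [show (1 : ℝ) = Real.sqrt 1 from Real.sqrt_one.symm]
    exact Real.sqrt_lt_sqrt zero_le_one hB
  obtain ⟨n0, hn0⟩ := hmain R (2 * |C|) (Real.sqrt B) hB2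
  -- a factor `2`
  obtain ⟨n2, hn2⟩ : ∃ n2 : ℕ, ∀ n : ℕ, n2 ≤ n → 2 ≤ Real.sqrt B ^ n := by
    have h1 := (tendsto_pow_atTop_atTop_of_one_lt hB2).eventually_ge_atTop 2
    rw [eventually_atTop] at h1
    exact h1
  refine ⟨n0 + n2 + 2 * h, fun k hk D E hD hE hDE p i => ?_⟩
  obtain ⟨n, rfl⟩ : ∃ n, k = n + h := ⟨k - h, by omega⟩
  have hnh : h ≤ n := by omega
  have hnr : (h : ℝ) ≤ n := by exact_mod_cast hnh
  have hmono : C * ((n + h : ℕ) : ℝ) ≤ 2 * |C| * n := by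
    push_cast
    have h1 := abs_nonneg C
    have h3 := le_abs_self C
    have h4 : (0 : ℝ) ≤ n := Nat.cast_nonneg n
    have h5 : (0 : ℝ) ≤ h := Nat.cast_nonneg h
    nlinarith
  set F : Λ × Bool → ℚ := fun x => if x.2 then E x.1 else D x.1 with hF
  have hF1 : ∀ s, Sm S R (2 * |C| * n) (F s) := by
    rintro ⟨w, b⟩
    cases b
    · exact (hD w).mono hmono
    · exact (hE w).mono hmono
  have hF2 : ∃ s, F s ≠ 0 := by
    obtain ⟨w, hw | hw⟩ := hDE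
    · exact ⟨(w, false), hw⟩
    · exact ⟨(w, true), hw⟩
  have hsum : ∑ s, (F s : ℝ) * MvPolynomial.aeval (cv n) (MvPolynomial.X (φ s) :
      MvPolynomial ((Fin (h + 1) × Λ) × Bool) ℚ) =
      ∑ w : Λ, ((D w : ℝ) * (mcv (n + h - wt w.1) w.1).re +
        (E w : ℝ) * ((mcv (n + h - wt w.1) w.1).im / Real.sqrt 3)) := by
    rw [Fintype.sum_prod_type]
    refine Finset.sum_congr rfl fun w _ => ?_
    have e1 : n + h - wt w.1 = n + (h - wt w.1) := by
      have := hwt w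
      omega
    rw [Fintype.sum_bool, MvPolynomial.aeval_X, MvPolynomial.aeval_X, hφ, e1]
    simp only [cv, hF, if_true, Bool.false_eq_true, if_false]
    ring
  have h1 := hn0 n (by omega) F hF1 hF2 p (i, false)
  have h2 := hn0 n (by omega) F hF1 hF2 p (i, true)
  rw [hsum] at h1 h2
  set L : ℝ := |∑ w : Λ, ((D w : ℝ) * (mcv (n + h - wt w.1) w.1).re +
        (E w : ℝ) * ((mcv (n + h - wt w.1) w.1).im / Real.sqrt 3)) - p| with hL
  simp only [hF, if_true, Bool.false_eq_true, if_false] at h1 h2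
  have hB0 : 0 < B := by linarith
  have hs0 : 0 < Real.sqrt B := by linarith
  have hK0 : (0 : ℝ) < K := by
    have : 0 < K := by omega
    exact_mod_cast this
  have hK1 : (1 : ℝ) ≤ K := by
    have : 1 ≤ K := by omega
    exact_mod_cast this
  have hKn : (0 : ℝ) < (K : ℝ) ^ n := by positivity
  have h3 : (B ^ (n + h))⁻¹ * min 1 ((|(D i : ℝ)| + |(E i : ℝ)|) / (K : ℝ) ^ (n + h)) ≤
      (Real.sqrt B ^ n)⁻¹ * max (min 1 (|(D i : ℝ)| / (K : ℝ) ^ n))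
        (min 1 (|(E i : ℝ)| / (K : ℝ) ^ n)) := by
    set x : ℝ := |(D i : ℝ)| with hx
    set y : ℝ := |(E i : ℝ)| with hy
    have hx0 : 0 ≤ x := abs_nonneg _
    have hy0 : 0 ≤ y := abs_nonneg _
    set m : ℝ := max (min 1 (x / (K : ℝ) ^ n)) (min 1 (y / (K : ℝ) ^ n)) with hm
    have hm0 : 0 ≤ m := le_max_of_le_left (le_min zero_le_one (by positivity))
    have h4 : min 1 ((x + y) / (K : ℝ) ^ (n + h)) ≤ 2 * m := by
      have h5 : (x + y) / (K : ℝ) ^ (n + h) ≤ x / (K : ℝ) ^ n + y / (K : ℝ) ^ n := by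
        rw [← add_div]
        refine div_le_div_of_nonneg_left (by positivity) hKn
          (pow_le_pow_right₀ hK1 (by omega))
      have h6 : min 1 (x / (K : ℝ) ^ n) ≤ m := le_max_left _ _
      have h7 : min 1 (y / (K : ℝ) ^ n) ≤ m := le_max_right _ _
      by_cases hmx : 1 ≤ x / (K : ℝ) ^ n
      · rw [min_eq_left hmx] at h6
        exact (min_le_left _ _).trans (by linarith)
      · by_cases hmy : 1 ≤ y / (K : ℝ) ^ n
        · rw [min_eq_left hmy] at h7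
          exact (min_le_left _ _).trans (by linarith)
        · push Not at hmx hmy
          rw [min_eq_right hmx.le] at h6
          rw [min_eq_right hmy.le] at h7
          exact (min_le_right _ _).trans (by linarith)
    have h8 : (B ^ (n + h))⁻¹ * 2 ≤ (Real.sqrt B ^ n)⁻¹ := by
      have h9 : B ^ n = Real.sqrt B ^ n * Real.sqrt B ^ n := by
        rw [← mul_pow, Real.mul_self_sqrt hB0.le]
      have h10 : B ^ n ≤ B ^ (n + h) := pow_le_pow_right₀ hB.le (by omega)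
      have h11 := hn2 n (by omega)
      have h12 : 0 < Real.sqrt B ^ n := by positivity
      have h13 : (B ^ (n + h))⁻¹ ≤ (B ^ n)⁻¹ := by
        have : 0 < B ^ n := by positivity
        gcongr
      calc (B ^ (n + h))⁻¹ * 2 ≤ (B ^ n)⁻¹ * 2 := by gcongr
        _ ≤ (B ^ n)⁻¹ * Real.sqrt B ^ n := by gcongr
        _ = (Real.sqrt B ^ n)⁻¹ := by
          rw [h9]
          field_simp
    have h14 : 0 ≤ (B ^ (n + h))⁻¹ := by positivity
    calc (B ^ (n + h))⁻¹ * min 1 ((x + y) / (K : ℝ) ^ (n + h)) ≤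
        (B ^ (n + h))⁻¹ * (2 * m) := by gcongr
      _ = ((B ^ (n + h))⁻¹ * 2) * m := by ring
      _ ≤ _ := by gcongr
  refine lt_of_le_of_lt h3 ?_
  rcases le_total (min 1 (|(D i : ℝ)| / (K : ℝ) ^ n)) (min 1 (|(E i : ℝ)| / (K : ℝ) ^ n))
    with h5 | h5
  · rw [max_eq_right h5]
    exact h2
  · rw [max_eq_left h5]
    exact h1

end Pool.Agent.V8H86.CV
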